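import Pool.Agent.Helper14.CV.StA

/-!
# Project CV, module N2: the trace to level M as a cusp form
-/

set_option autoImplicit false

open UpperHalfPlane CongruenceSubgroup Matrix.SpecialLinearGroup
open scoped MatrixGroups ModularForm

namespace Pool.Agent.Helper99.CV

open Pool.Agent.Helper14.CV

/-- the matrix with rows 1 0 and M 1 -/
private def sg (M : ℕ) : SL(2, ℤ) := ⟨!![1, 0; (M : ℤ), 1], by simp [Matrix.det_fin_two]⟩

private theorem mem0 (N : ℕ) (g : SL(2, ℤ)) : g ∈ Gamma0 N ↔ (N : ℤ) ∣ g 1 0 := by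
  rw [Gamma0_mem, ZMod.intCast_zmod_eq_zero_iff_dvd]

private theorem sg_mem (M : ℕ) : sg M ∈ Gamma0 M := by
  rw [mem0]
  simp [sg]

private theorem G0_mem (N : ℕ) (g : SL(2, ℤ)) : mapGL ℝ g ∈ G0 N ↔ g ∈ Gamma0 N := by
  constructor
  · rintro ⟨γ, hγ, he⟩
    rw [mapGL_injective he] at hγ
    exact hγ
  · intro h
    exact Subgroup.mem_map_of_mem _ h

private theorem sg_mul (M : ℕ) (g : SL(2, ℤ)) : (sg M * g) 1 0 = M * g 0 0 + g 1 0 := by
  rw [Matrix.SpecialLinearGroup.coe_mul, Matrix.mul_apply, Fin.sum_univ_two]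
  simp [sg]

/-- every element of `Γ₀(M)` is in `Γ₀(2M)` or in σ⁻¹ Γ₀(2M) -/
private theorem two_classes {M : ℕ} (h2 : 2 ∣ M) {g : SL(2, ℤ)} (hg : g ∈ Gamma0 M) :
    g ∈ Gamma0 (2 * M) ∨ sg M * g ∈ Gamma0 (2 * M) := by
  rw [mem0] at hg
  rw [mem0, mem0, sg_mul]
  obtain ⟨c, hc⟩ := hg
  obtain ⟨m, hm⟩ := h2
  have hdet := Matrix.SpecialLinearGroup.det_coe g
  rw [Matrix.det_fin_two] at hdet
  have hodd : Odd (g 0 0) := by
    by_contra hne
    rw [Int.not_odd_iff_even] at hne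
    obtain ⟨a, ha⟩ := hne
    rw [hc, ha] at hdet
    have : (2 : ℤ) ∣ 1 := by
      refine ⟨a * g 1 1 - g 0 1 * (m * c), ?_⟩
      rw [hm] at hdet
      push_cast at hdet
      linear_combination -hdet
    omega
  rcases Int.even_or_odd c with ⟨r, hr⟩ | ⟨r, hr⟩
  · left
    refine ⟨r, ?_⟩
    rw [hc, hr]
    push_cast
    ring
  · right
    obtain ⟨a, ha⟩ := hodd
    refine ⟨a + r + 1, ?_⟩
    rw [hc, ha, hr]
    push_cast
    ring

/-- Module N2. -/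
theorem hN2 : StN2 := by
  classical
  intro M hM f h2
  have hM0 : M ≠ 0 := hM.out
  have hM2 : NeZero (2 * M) := ⟨by omega⟩
  have hle : G0 M ≤ 𝒮ℒ := by
    rintro _ ⟨γ, -, rfl⟩
    exact ⟨γ, rfl⟩
  have hfin : (G0 (2 * M)).IsFiniteRelIndex (G0 M) := Subgroup.isFiniteRelIndex_of_le_right _ hle
  refine ⟨CuspForm.trace (G0 M) f, fun z hz => ?_⟩
  set S : ↥(G0 M) := ⟨mapGL ℝ (sg M), (G0_mem M _).2 (sg_mem M)⟩ with hS
  let _ : Fintype (↥(G0 M) ⧸ (G0 (2 * M)).subgroupOf (G0 M)) := Fintype.ofFinite _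
  have hmk : ∀ x y : ↥(G0 M), (⟦x⟧ : ↥(G0 M) ⧸ (G0 (2 * M)).subgroupOf (G0 M)) = ⟦y⟧ ↔
      ((x⁻¹ * y : ↥(G0 M)) : GL (Fin 2) ℝ) ∈ G0 (2 * M) := by
    intro x y
    rw [Quotient.eq, QuotientGroup.leftRel_apply, Subgroup.mem_subgroupOf]
  have hne : (⟦1⟧ : ↥(G0 M) ⧸ (G0 (2 * M)).subgroupOf (G0 M)) ≠ ⟦S⁻¹⟧ := by
    intro h
    have h' := h.symm
    rw [hmk, inv_inv, mul_one, hS, G0_mem, mem0] at h'
    obtain ⟨c, hc⟩ := h'
    have hc' : (M : ℤ) = 2 * M * c := by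
      have : (sg M) 1 0 = (M : ℤ) := by simp [sg]
      rw [this] at hc
      push_cast at hc
      exact hc
    have h3 : (M : ℤ) * (1 - 2 * c) = 0 := by linear_combination hc'
    rcases mul_eq_zero.1 h3 with h4 | h4
    · exact hM0 (by exact_mod_cast h4)
    · omega
  have hall : ∀ q : ↥(G0 M) ⧸ (G0 (2 * M)).subgroupOf (G0 M), q = ⟦1⟧ ∨ q = ⟦S⁻¹⟧ := by
    intro q
    induction q using Quotient.inductionOn with
    | h x =>
      obtain ⟨x, γ, hγ, rfl⟩ := x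
      rcases two_classes h2 hγ with h | h
      · left
        refine Eq.symm ((hmk _ _).2 ?_)
        rw [inv_one, one_mul]
        exact (G0_mem _ _).2 h
      · right
        refine Eq.symm ((hmk _ _).2 ?_)
        rw [inv_inv]
        have h5 : (S * (⟨mapGL ℝ γ, γ, hγ, rfl⟩ : ↥(G0 M)) : ↥(G0 M)) = (⟨mapGL ℝ (sg M * γ),
            (G0_mem M _).2 (mul_mem (sg_mem M) hγ)⟩ : ↥(G0 M)) := by
          apply Subtype.ext
          change mapGL ℝ (sg M) * mapGL ℝ γ = mapGL ℝ (sg M * γ)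
          rw [map_mul]
        rw [h5]
        exact (G0_mem _ _).2 h
  have huniv : (Finset.univ : Finset (↥(G0 M) ⧸ (G0 (2 * M)).subgroupOf (G0 M)))
      = {(⟦1⟧ : ↥(G0 M) ⧸ (G0 (2 * M)).subgroupOf (G0 M)), ⟦S⁻¹⟧} := by
    ext q
    simp only [Finset.mem_univ, Finset.mem_insert, Finset.mem_singleton, true_iff]
    exact hall q
  set w : ℍ := ⟨z, hz⟩ with hw
  have hwz : (w : ℂ) = z := rfl
  have e0 : ∀ (N : ℕ) (k : CuspForm (G0 N) 2) (v : ℍ), fz k (v : ℂ) = k v := by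
    intro N k v
    unfold fz
    rw [UpperHalfPlane.ofComplex_apply]
  have hs : ∑ q : ↥(G0 M) ⧸ (G0 (2 * M)).subgroupOf (G0 M), SlashInvariantForm.quotientFunc f q
      = SlashInvariantForm.quotientFunc f (⟦1⟧ : ↥(G0 M) ⧸ (G0 (2 * M)).subgroupOf (G0 M))
        + SlashInvariantForm.quotientFunc f ⟦S⁻¹⟧ := by
    rw [huniv]
    exact Finset.sum_pair hne
  have e1 : CuspForm.trace (G0 M) f w = f w + ((f : ℍ → ℂ) ∣[(2 : ℤ)] (mapGL ℝ (sg M))) w := by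
    rw [CuspForm.coe_trace]
    refine (congrFun hs w).trans ?_
    rw [SlashInvariantForm.quotientFunc_mk, SlashInvariantForm.quotientFunc_mk, Pi.add_apply]
    rw [Subgroup.coe_one, inv_one, SlashAction.slash_one, Subgroup.coe_inv, inv_inv]
  have e2 : ((f : ℍ → ℂ) ∣[(2 : ℤ)] (mapGL ℝ (sg M))) w
      = ((M * z + 1) ^ 2)⁻¹ * fz f (z / (M * z + 1)) := by
    refine (ModularForm.SL_slash_apply (k := 2) (f : ℍ → ℂ) (sg M) w).trans ?_
    have h6 : ((sg M • w : ℍ) : ℂ) = z / (M * z + 1) := by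
      rw [UpperHalfPlane.coe_specialLinearGroup_apply]
      simp [sg, hwz]
    have h7 : UpperHalfPlane.denom (sg M) w = M * z + 1 := by
      rw [ModularGroup.denom_apply]
      simp [sg, hwz]
    rw [← h6, e0, h7, mul_comm, zpow_neg]
    rfl
  rw [← hwz, e0, e0, e1, e2, hwz]

end Pool.Agent.Helper99.CV
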